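import Mathlib

/-!
Diagonalising continuum many partial functions by a pair of ultrafilters.
-/

open Set Filter Cardinal

namespace Pool.Agent.Q304.FP

/-- Finite Boolean combination of the sets `B i`, `i ∈ s`, with pattern `ε`. -/
def cb {I : Type} (B : I → Set ℕ) (s : Finset I) (ε : I → Bool) : Set ℕ :=
  {n | ∀ i ∈ s, (n ∈ B i ↔ ε i = true)}

/-- Independence of the `B i`, `i ∈ J`, over the filter `F` and the set `P`. -/
def Ind {I : Type} (B : I → Set ℕ) (F : Filter ℕ) (P : Set ℕ) (J : Set I) : Prop :=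
  ∀ s : Finset I, (∀ i ∈ s, i ∈ J) → ∀ ε : I → Bool, ∃ᶠ n in F, n ∈ P ∧ n ∈ cb B s ε

section
variable {I : Type} {B : I → Set ℕ} {F : Filter ℕ} {P Q : Set ℕ} {J J' : Set I}

lemma Ind.mono (h : Ind B F P J) (hJ : J' ⊆ J) : Ind B F P J' :=
  fun s hs ε => h s (fun i hi => hJ (hs i hi)) ε

lemma Ind.monoP (h : Ind B F P J) (hP : P ⊆ Q) : Ind B F Q J :=
  fun s hs ε => (h s hs ε).mono fun _ hn => ⟨hP hn.1, hn.2⟩

open Classical in
lemma Ind.split (h : Ind B F (P ∪ Q) J) :
    (∃ t : Finset I, Ind B F P (J \ ↑t)) ∨ (∃ t : Finset I, Ind B F Q (J \ ↑t)) := by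
  by_cases hP : Ind B F P J
  · exact Or.inl ⟨∅, hP.mono sdiff_subset⟩
  · right
    unfold Ind at hP
    push Not at hP
    obtain ⟨t, ht, ε, hε⟩ := hP
    refine ⟨t, fun s hs ε' => ?_⟩
    have h1 := h (t ∪ s) (by
      intro i hi
      rcases Finset.mem_union.1 hi with h | h
      · exact ht i h
      · exact (hs i h).1) (fun i => if i ∈ t then ε i else ε' i)
    have h2 : ∃ᶠ n in F, (n ∈ P ∧ n ∈ cb B t ε) ∨ (n ∈ Q ∧ n ∈ cb B s ε') := by
      refine h1.mono fun n hn => ?_
      have hnt : n ∈ cb B t ε := fun i hi => by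
        have := hn.2 i (Finset.mem_union_left _ hi)
        simpa [hi] using this
      have hns : n ∈ cb B s ε' := fun i hi => by
        have := hn.2 i (Finset.mem_union_right _ hi)
        have hit : i ∉ t := fun h => (hs i hi).2 (by simpa using h)
        simpa [hit] using this
      rcases hn.1 with h | h
      · exact Or.inl ⟨h, hnt⟩
      · exact Or.inr ⟨h, hns⟩
    rw [frequently_or_distrib] at h2
    rcases h2 with h2 | h2
    · exact absurd h2 (by simpa [not_frequently] using hε)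
    · exact h2

open Classical in
lemma Ind.pos (h : Ind B F univ J) {i : I} (hi : i ∈ J) : Ind B F (B i) (J \ {i}) := by
  intro s hs ε
  refine (h (insert i s) (by
    intro j hj
    rcases Finset.mem_insert.1 hj with h | h
    · exact h ▸ hi
    · exact (hs j h).1) (fun j => if j = i then true else ε j)).mono fun n hn => ⟨?_, ?_⟩
  · have := hn.2 i (Finset.mem_insert_self _ _)
    simpa using this
  · intro j hj
    have := hn.2 j (Finset.mem_insert_of_mem hj)
    have hji : j ≠ i := fun h => (hs j hj).2 (by simp [h])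
    simpa [hji] using this

open Classical in
lemma Ind.neg (h : Ind B F univ J) {i : I} (hi : i ∈ J) : Ind B F (B i)ᶜ (J \ {i}) := by
  intro s hs ε
  refine (h (insert i s) (by
    intro j hj
    rcases Finset.mem_insert.1 hj with h | h
    · exact h ▸ hi
    · exact (hs j h).1) (fun j => if j = i then false else ε j)).mono fun n hn => ⟨?_, ?_⟩
  · have := hn.2 i (Finset.mem_insert_self _ _)
    simpa using this
  · intro j hj
    have := hn.2 j (Finset.mem_insert_of_mem hj)
    have hji : j ≠ i := fun h => (hs j hj).2 (by simp [h])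
    simpa [hji] using this

end

/-- The sets `P ∈ U`, `Q ∈ V` force that the pair `(U, V)` is not respected by the partial
function `g`. -/
def Kills (g : Set ℕ → Set ℕ → Option (Set ℕ × Set ℕ)) (P Q : Set ℕ) : Prop :=
  ∀ U V : Ultrafilter ℕ, P ∈ U → Q ∈ V →
    ∃ a b, (g a b = none ∧ a ∈ U ∧ b ∈ V) ∨
      ∃ X Y, g a b = some (X, Y) ∧ ¬ ((X ∈ U ∧ Y ∈ V) ↔ (a ∉ U ∨ b ∉ V))

open Classical in
/-- One step of the construction. -/
lemma step {I : Type} (B : I → Set ℕ) (F G : Filter ℕ) (J : Set I) (hF : Ind B F univ J)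
    (hG : Ind B G univ J) (i : I) (hi : i ∈ J)
    (g : Set ℕ → Set ℕ → Option (Set ℕ × Set ℕ)) :
    ∃ (P Q : Set ℕ) (S : Finset I), Ind B F P (J \ ↑S) ∧ Ind B G Q (J \ ↑S) ∧ Kills g P Q := by
  rcases hg : g (B i) (B i) with _ | ⟨X, Y⟩
  · refine ⟨B i, B i, {i}, ?_, ?_, ?_⟩
    · simpa using hF.pos hi
    · simpa using hG.pos hi
    · intro U V hU hV
      exact ⟨B i, B i, Or.inl ⟨hg, hU, hV⟩⟩
  · by_cases hA : ∃ t : Finset I, Ind B G Yᶜ (J \ ↑t)
    · obtain ⟨t, ht⟩ := hA
      refine ⟨(B i)ᶜ, Yᶜ, insert i t, ?_, ?_, ?_⟩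
      · exact (hF.neg hi).mono (sdiff_subset_sdiff_right (by simp))
      · exact ht.mono (sdiff_subset_sdiff_right (by simp))
      · intro U V hU hV
        refine ⟨B i, B i, Or.inr ⟨X, Y, hg, ?_⟩⟩
        have h1 : B i ∉ U := Ultrafilter.compl_mem_iff_notMem.1 hU
        have h2 : Y ∉ V := Ultrafilter.compl_mem_iff_notMem.1 hV
        simp [h1, h2]
    · by_cases hB : ∃ t : Finset I, Ind B F Xᶜ (J \ ↑t)
      · obtain ⟨t, ht⟩ := hB
        refine ⟨Xᶜ, (B i)ᶜ, insert i t, ?_, ?_, ?_⟩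
        · exact ht.mono (sdiff_subset_sdiff_right (by simp))
        · exact (hG.neg hi).mono (sdiff_subset_sdiff_right (by simp))
        · intro U V hU hV
          refine ⟨B i, B i, Or.inr ⟨X, Y, hg, ?_⟩⟩
          have h1 : B i ∉ V := Ultrafilter.compl_mem_iff_notMem.1 hV
          have h2 : X ∉ U := Ultrafilter.compl_mem_iff_notMem.1 hU
          simp [h1, h2]
      · have h1 : ∃ t : Finset I, Ind B F (B i ∩ X) ((J \ {i}) \ ↑t) := by
          have h := ((hF.pos hi).monoP (Q := (B i ∩ X) ∪ Xᶜ) (fun n hn => by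
            by_cases h : n ∈ X
            · exact Or.inl ⟨hn, h⟩
            · exact Or.inr h)).split
          rcases h with h | ⟨t, ht⟩
          · exact h
          · exact absurd ⟨insert i t, ht.mono (fun j hj => by
              simp only [Finset.coe_insert, Set.mem_sdiff, mem_insert_iff, not_or] at hj ⊢
              exact ⟨⟨hj.1, by simpa using hj.2.1⟩, hj.2.2⟩)⟩ hB
        have h2 : ∃ t : Finset I, Ind B G (B i ∩ Y) ((J \ {i}) \ ↑t) := by
          have h := ((hG.pos hi).monoP (Q := (B i ∩ Y) ∪ Yᶜ) (fun n hn => by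
            by_cases h : n ∈ Y
            · exact Or.inl ⟨hn, h⟩
            · exact Or.inr h)).split
          rcases h with h | ⟨t, ht⟩
          · exact h
          · exact absurd ⟨insert i t, ht.mono (fun j hj => by
              simp only [Finset.coe_insert, Set.mem_sdiff, mem_insert_iff, not_or] at hj ⊢
              exact ⟨⟨hj.1, by simpa using hj.2.1⟩, hj.2.2⟩)⟩ hA
        obtain ⟨t, ht⟩ := h1
        obtain ⟨u, hu⟩ := h2
        refine ⟨B i ∩ X, B i ∩ Y, insert i (t ∪ u), ?_, ?_, ?_⟩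
        · refine ht.mono (fun j hj => ?_)
          simp only [Finset.coe_insert, Finset.coe_union, Set.mem_sdiff, mem_insert_iff, mem_union,
            not_or] at hj ⊢
          exact ⟨⟨hj.1, by simpa using hj.2.1⟩, hj.2.2.1⟩
        · refine hu.mono (fun j hj => ?_)
          simp only [Finset.coe_insert, Finset.coe_union, Set.mem_sdiff, mem_insert_iff, mem_union,
            not_or] at hj ⊢
          exact ⟨⟨hj.1, by simpa using hj.2.1⟩, hj.2.2.2⟩
        · intro U V hU hV
          refine ⟨B i, B i, Or.inr ⟨X, Y, hg, ?_⟩⟩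
          have a1 : B i ∈ U := mem_of_superset hU inter_subset_left
          have a2 : X ∈ U := mem_of_superset hU inter_subset_right
          have a3 : B i ∈ V := mem_of_superset hV inter_subset_left
          have a4 : Y ∈ V := mem_of_superset hV inter_subset_right
          simp [a1, a2, a3, a4]

/-- The filter generated by the cofinite sets and `P η`, `η ∈ A`. -/
def Fl {Θ : Type} (P : Θ → Set ℕ) (A : Set Θ) : Filter ℕ := cofinite ⊓ ⨅ η ∈ A, 𝓟 (P η)

lemma Fl_anti {Θ : Type} (P : Θ → Set ℕ) {A A' : Set Θ} (h : A ⊆ A') : Fl P A' ≤ Fl P A :=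
  inf_le_inf_left _ (biInf_mono h)

lemma mem_Fl {Θ : Type} (P : Θ → Set ℕ) {A : Set Θ} {η : Θ} (h : η ∈ A) : P η ∈ Fl P A :=
  mem_inf_of_right (mem_iInf_of_mem η (mem_iInf_of_mem h (mem_principal_self _)))

/-- Limit step. -/
lemma lim {Θ : Type} [LinearOrder Θ] {I : Type} {B : I → Set ℕ} (P : Θ → Set ℕ) (A : Set Θ)
    (J : Set I)
    (h0 : Ind B cofinite univ J) (h : ∀ η ∈ A, Ind B (Fl P (Iio η)) (P η) J) :
    Ind B (Fl P A) univ J := by
  intro s hs ε
  by_cases hA : A.Nonempty
  · have hle : (⨅ η ∈ A, (Fl P (Iio η) ⊓ 𝓟 (P η))) ≤ Fl P A := by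
      refine le_inf ?_ ?_
      · obtain ⟨η, hη⟩ := hA
        exact (iInf₂_le η hη).trans (inf_le_left.trans inf_le_left)
      · exact iInf₂_mono fun η _ => inf_le_right
    refine Frequently.filter_mono ?_ hle
    rw [frequently_iff]
    intro U hU
    have hdir : DirectedOn ((fun η => Fl P (Iio η) ⊓ 𝓟 (P η)) ⁻¹'o (· ≥ ·)) A := by
      intro x hx y hy
      rcases le_total x y with hxy | hxy
      · refine ⟨y, hy, ?_, le_refl _⟩
        change Fl P (Iio y) ⊓ 𝓟 (P y) ≤ Fl P (Iio x) ⊓ 𝓟 (P x)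
        rcases hxy.lt_or_eq with hlt | heq
        · refine le_inf (inf_le_left.trans (Fl_anti P (Iio_subset_Iio hxy))) ?_
          refine inf_le_left.trans ?_
          exact le_principal_iff.2 (mem_Fl P hlt)
        · rw [heq]
      · refine ⟨x, hx, le_refl _, ?_⟩
        change Fl P (Iio x) ⊓ 𝓟 (P x) ≤ Fl P (Iio y) ⊓ 𝓟 (P y)
        rcases hxy.lt_or_eq with hlt | heq
        · refine le_inf (inf_le_left.trans (Fl_anti P (Iio_subset_Iio hxy))) ?_
          refine inf_le_left.trans ?_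
          exact le_principal_iff.2 (mem_Fl P hlt)
        · rw [heq]
    obtain ⟨η, hη, hU⟩ := (mem_biInf_of_directed hdir hA).1 hU
    have h1 := h η hη s hs ε
    rw [frequently_iff] at h1
    rw [mem_inf_principal] at hU
    obtain ⟨n, hn, hn2⟩ := h1 hU
    exact ⟨n, hn hn2.1, trivial, hn2.2⟩
  · rw [not_nonempty_iff_eq_empty] at hA
    subst hA
    have : Fl P (∅ : Set Θ) = cofinite := by simp [Fl]
    rw [this]
    exact h0 s hs ε

/-- Existence of the sequence of conditions. -/
lemma exists_seq {I : Type} (hI : #I = 𝔠) (B : I → Set ℕ)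
    (hB : Ind B cofinite Set.univ Set.univ)
    {Θ : Type} [LinearOrder Θ] [WellFoundedLT Θ] (hΘ : ∀ θ : Θ, #(Iio θ) < 𝔠)
    (g : Θ → Set ℕ → Set ℕ → Option (Set ℕ × Set ℕ)) :
    ∃ U V : Ultrafilter ℕ, (U : Filter ℕ) ≤ cofinite ∧ (V : Filter ℕ) ≤ cofinite ∧
      ∀ θ, ∃ a b, (g θ a b = none ∧ a ∈ U ∧ b ∈ V) ∨
        ∃ X Y, g θ a b = some (X, Y) ∧ ¬ ((X ∈ U ∧ Y ∈ V) ↔ (a ∉ U ∨ b ∉ V)) := by
  classical
  let T := Set ℕ × Set ℕ × Finset I
  -- conditions on the value at `θ`
  let good : (θ : Θ) → (P Q : Θ → Set ℕ) → (J : Set I) → T → Prop := fun θ P Q J t =>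
    Ind B (Fl P (Iio θ)) t.1 (J \ ↑t.2.2) ∧ Ind B (Fl Q (Iio θ)) t.2.1 (J \ ↑t.2.2) ∧
      Kills (g θ) t.1 t.2.1
  let ext : (θ : Θ) → ((η : Θ) → η < θ → T) → Θ → T := fun θ f η =>
    if h : η < θ then f η h else (Set.univ, Set.univ, ∅)
  let JJ : (Θ → T) → Θ → Set I := fun f θ => {i | ∀ η < θ, i ∉ (f η).2.2}
  let F : (θ : Θ) → ((η : Θ) → η < θ → T) → T := fun θ f =>
    if h : ∃ t : T, good θ (fun η => (ext θ f η).1) (fun η => (ext θ f η).2.1) (JJ (ext θ f) θ) t
      then h.choose else (Set.univ, Set.univ, ∅)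
  let R : Θ → T := (wellFounded_lt (α := Θ)).fix F
  have hR : ∀ θ, R θ = F θ (fun η _ => R η) := fun θ => WellFounded.fix_eq _ _ _
  have hFl : ∀ (θ : Θ) (f f' : Θ → Set ℕ), (∀ η < θ, f η = f' η) →
      Fl f (Iio θ) = Fl f' (Iio θ) := by
    intro θ f f' h
    unfold Fl
    congr 1
    exact iInf_congr fun η => iInf_congr fun hη => by rw [h η hη]
  have hext : ∀ θ : Θ, ∀ η < θ, ext θ (fun η _ => R η) η = R η := by
    intro θ η h
    simp [ext, h]
  have hstep : ∀ θ, (∃ t : T, good θ (fun η => (R η).1) (fun η => (R η).2.1) (JJ R θ) t) →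
      good θ (fun η => (R η).1) (fun η => (R η).2.1) (JJ R θ) (R θ) := by
    intro θ
    have e1 : ∀ t : T, good θ (fun η => (ext θ (fun η _ => R η) η).1)
        (fun η => (ext θ (fun η _ => R η) η).2.1) (JJ (ext θ (fun η _ => R η)) θ) t ↔
        good θ (fun η => (R η).1) (fun η => (R η).2.1) (JJ R θ) t := by
      intro t
      have a1 := hFl θ (fun η => (ext θ (fun η _ => R η) η).1) (fun η => (R η).1)
        (fun η hη => by simp only [hext θ η hη])
      have a2 := hFl θ (fun η => (ext θ (fun η _ => R η) η).2.1) (fun η => (R η).2.1)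
        (fun η hη => by simp only [hext θ η hη])
      have a3 : JJ (ext θ (fun η _ => R η)) θ = JJ R θ := by
        ext i
        simp only [JJ, mem_ofPred_eq]
        exact forall₂_congr fun η hη => by rw [hext θ η hη]
      simp only [good, a1, a2, a3]
    rintro ⟨t, ht⟩
    have hex : ∃ t : T, good θ (fun η => (ext θ (fun η _ => R η) η).1)
        (fun η => (ext θ (fun η _ => R η) η).2.1) (JJ (ext θ (fun η _ => R η)) θ) t :=
      ⟨t, (e1 t).2 ht⟩
    have : R θ = hex.choose := by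
      rw [hR θ]
      simp only [F]
      rw [dif_pos hex]
    rw [this]
    exact (e1 _).1 hex.choose_spec
  -- unused indices
  have hunused : ∀ θ, (JJ R θ).Nonempty := by
    intro θ
    by_contra hcon
    rw [not_nonempty_iff_eq_empty] at hcon
    have h1 : (⋃ η : Iio θ, ((R η).2.2 : Set I)) = Set.univ := by
      rw [eq_univ_iff_forall]
      intro i
      by_contra hi
      have : i ∈ JJ R θ := by
        intro η hη hiη
        exact hi (mem_iUnion.2 ⟨⟨η, hη⟩, by simpa using hiη⟩)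
      rw [hcon] at this
      exact this
    have h2 : #(⋃ η : Iio θ, ((R η).2.2 : Set I)) < 𝔠 := by
      refine (mk_iUnion_le _).trans_lt ?_
      refine mul_lt_of_lt aleph0_lt_continuum.le (hΘ θ) ?_
      refine lt_of_le_of_lt ?_ aleph0_lt_continuum
      refine ciSup_le' fun η => ?_
      exact (Cardinal.lt_aleph0_iff_finite.2 (Finset.finite_toSet _)).le
    rw [h1, mk_univ, hI] at h2
    exact lt_irrefl _ h2
  -- main induction
  have hmain : ∀ θ, good θ (fun η => (R η).1) (fun η => (R η).2.1) (JJ R θ) (R θ) := by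
    intro θ
    induction θ using (wellFounded_lt (α := Θ)).induction with
    | _ θ ih =>
      apply hstep
      obtain ⟨i, hi⟩ := hunused θ
      have hsub : ∀ η < θ, JJ R θ ⊆ JJ R η \ ↑(R η).2.2 := by
        intro η hη j hj
        exact ⟨fun ζ hζ => hj ζ (hζ.trans hη), by simpa using hj η hη⟩
      have h1 : Ind B (Fl (fun η => (R η).1) (Iio θ)) Set.univ (JJ R θ) :=
        lim _ _ _ (hB.mono (subset_univ _)) (fun η hη => (ih η hη).1.mono (hsub η hη))
      have h2 : Ind B (Fl (fun η => (R η).2.1) (Iio θ)) Set.univ (JJ R θ) :=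
        lim _ _ _ (hB.mono (subset_univ _)) (fun η hη => (ih η hη).2.1.mono (hsub η hη))
      obtain ⟨P, Q, S, hP, hQ, hK⟩ := step B _ _ _ h1 h2 i hi (g θ)
      exact ⟨(P, Q, S), hP, hQ, hK⟩
  -- final filters
  have f1 : Ind B (Fl (fun η => (R η).1) Set.univ) Set.univ (∅ : Set I) :=
    lim _ _ _ (hB.mono (subset_univ _)) (fun η _ => (hmain η).1.mono (empty_subset _))
  have f2 : Ind B (Fl (fun η => (R η).2.1) Set.univ) Set.univ (∅ : Set I) :=
    lim _ _ _ (hB.mono (subset_univ _)) (fun η _ => (hmain η).2.1.mono (empty_subset _))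
  have n1 : (Fl (fun η => (R η).1) Set.univ).NeBot := by
    have := f1 ∅ (by simp) (fun _ => true)
    rw [neBot_iff]
    intro hbot
    rw [hbot] at this
    simp at this
  have n2 : (Fl (fun η => (R η).2.1) Set.univ).NeBot := by
    have := f2 ∅ (by simp) (fun _ => true)
    rw [neBot_iff]
    intro hbot
    rw [hbot] at this
    simp at this
  refine ⟨Ultrafilter.of (Fl (fun η => (R η).1) Set.univ), Ultrafilter.of (Fl (fun η => (R η).2.1) Set.univ),
    (Ultrafilter.of_le _).trans inf_le_left, (Ultrafilter.of_le _).trans inf_le_left, ?_⟩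
  intro θ
  exact (hmain θ).2.2 _ _ (Ultrafilter.of_le _ (mem_Fl (fun η => (R η).1) (mem_univ θ)))
    (Ultrafilter.of_le _ (mem_Fl (fun η => (R η).2.1) (mem_univ θ)))

end Pool.Agent.Q304.FP
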