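import Pool.Agent.Q304.FP.Diag

/-!
An independent family of continuum many sets of natural numbers; and a family of continuum many
partial functions that captures all homeomorphisms between subspaces of two second countable
Hausdorff spaces.
-/

open Set Filter Cardinal Topology

namespace Pool.Agent.Q304.FP

open Classical in
lemma exists_indep : ∃ B : Set ℕ → Set ℕ, Ind B cofinite Set.univ Set.univ := by
  let T := Finset ℕ × Finset (Finset ℕ) × ℕ
  obtain ⟨e⟩ : Nonempty (T ≃ ℕ) := nonempty_equiv_of_countable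
  refine ⟨fun A => {n | (e.symm n).1.filter (· ∈ A) ∈ (e.symm n).2.1}, ?_⟩
  intro s _ ε
  rw [frequently_cofinite_iff_infinite]
  -- separate the members of `s`
  let d : Set ℕ × Set ℕ → ℕ := fun p =>
    if h : ∃ n, ¬ (n ∈ p.1 ↔ n ∈ p.2) then h.choose else 0
  have hd : ∀ A A' : Set ℕ, A ≠ A' → ¬ (d (A, A') ∈ A ↔ d (A, A') ∈ A') := by
    intro A A' h
    have hex : ∃ n, ¬ (n ∈ (A, A').1 ↔ n ∈ (A, A').2) := by
      by_contra hcon
      push Not at hcon
      exact h (Set.ext hcon)
    simp only [d]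
    rw [dif_pos hex]
    exact hex.choose_spec
  let D : Finset ℕ := (s ×ˢ s).image d
  let E : Finset (Finset ℕ) := (s.filter (fun A => ε A = true)).image (fun A => D.filter (· ∈ A))
  refine infinite_of_injective_forall_mem (f := fun k : ℕ => e (D, E, k)) ?_ ?_
  · intro k k' h
    have := e.injective h
    exact congrArg (fun t : T => t.2.2) this
  · intro k
    refine ⟨trivial, fun A hA => ?_⟩
    have : (e (D, E, k) ∈ {n | (e.symm n).1.filter (· ∈ A) ∈ (e.symm n).2.1}) ↔
        D.filter (· ∈ A) ∈ E := by simp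
    rw [this]
    simp only [E, Finset.mem_image, Finset.mem_filter]
    constructor
    · rintro ⟨A', ⟨hA', hε⟩, heq⟩
      by_cases hAA : A' = A
      · rw [← hAA]; exact hε
      · exfalso
        refine hd A' A hAA ?_
        have hmem : d (A', A) ∈ D := Finset.mem_image.2 ⟨(A', A), by simp [hA, hA'], rfl⟩
        have := Finset.ext_iff.1 heq (d (A', A))
        simpa [hmem] using this
    · intro h
      exact ⟨A, ⟨hA, h⟩, rfl⟩

section
variable {X Y : Type} [TopologicalSpace X] [TopologicalSpace Y]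

/-- The relation coded by the sequence `s`: the closure of the graph `s` is, near `(x, y)`, the
graph of a function continuous at `x`, and the same for the inverse. -/
def Rel (s : ℕ → X × Y) (x : X) (y : Y) : Prop :=
  ((∀ U ∈ 𝓝 x, ∃ n, (s n).1 ∈ U) ∧ ∀ V ∈ 𝓝 y, ∃ U ∈ 𝓝 x, ∀ n, (s n).1 ∈ U → (s n).2 ∈ V) ∧
  ((∀ V ∈ 𝓝 y, ∃ n, (s n).2 ∈ V) ∧ ∀ U ∈ 𝓝 x, ∃ V ∈ 𝓝 y, ∀ n, (s n).2 ∈ V → (s n).1 ∈ U)

lemma Rel.unique [T2Space Y] {s : ℕ → X × Y} {x : X} {y y' : Y} (h : Rel s x y)
    (h' : Rel s x y') : y = y' := by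
  by_contra hne
  obtain ⟨V, V', hV, hV', hdisj⟩ := t2_separation_nhds hne
  obtain ⟨U, hU, hUV⟩ := h.1.2 V hV
  obtain ⟨U', hU', hUV'⟩ := h'.1.2 V' hV'
  obtain ⟨n, hn⟩ := h.1.1 (U ∩ U') (inter_mem hU hU')
  exact (Set.disjoint_left.1 hdisj) (hUV n hn.1) (hUV' n hn.2)

lemma Rel.unique' [T2Space X] {s : ℕ → X × Y} {x x' : X} {y : Y} (h : Rel s x y)
    (h' : Rel s x' y) : x = x' := by
  by_contra hne
  obtain ⟨V, V', hV, hV', hdisj⟩ := t2_separation_nhds hne
  obtain ⟨U, hU, hUV⟩ := h.2.2 V hV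
  obtain ⟨U', hU', hUV'⟩ := h'.2.2 V' hV'
  obtain ⟨n, hn⟩ := h.2.1 (U ∩ U') (inter_mem hU hU')
  exact (Set.disjoint_left.1 hdisj) (hUV n hn.1) (hUV' n hn.2)

open Classical in
/-- The partial function coded by `s`. -/
noncomputable def Phi (s : ℕ → X × Y) (x : X) : Option Y :=
  if h : ∃ y, Rel s x y then some h.choose else none

/-- Every homeomorphism between subspaces is captured by a code. -/
lemma exists_code [T2Space X] [T2Space Y] [SecondCountableTopology X] {A : Set X} {B : Set Y}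
    (hA : A.Nonempty) (h : A ≃ₜ B) :
    ∃ s : ℕ → X × Y, (∀ x ∈ A, Phi s x ≠ none) ∧ ∀ x y, Phi s x = some y → (x ∈ A ↔ y ∈ B) := by
  have : Nonempty A := hA.to_subtype
  obtain ⟨u, hu⟩ := TopologicalSpace.exists_dense_seq A
  let s : ℕ → X × Y := fun n => ((u n : X), (h (u n) : Y))
  have hrel : ∀ x : A, Rel s (x : X) (h x : Y) := by
    intro x
    refine ⟨⟨?_, ?_⟩, ⟨?_, ?_⟩⟩
    · intro U hU
      have hU' : (Subtype.val : A → X) ⁻¹' U ∈ 𝓝 x := continuous_subtype_val.continuousAt hU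
      obtain ⟨O, hO, hOo, hxO⟩ := mem_nhds_iff.1 hU'
      obtain ⟨n, hn⟩ := hu.exists_mem_open hOo ⟨x, hxO⟩
      exact ⟨n, hO hn⟩
    · intro V hV
      have hc : ContinuousAt (fun z : A => (h z : Y)) x :=
        (continuous_subtype_val.comp h.continuous).continuousAt
      have hV' := hc hV
      rw [mem_map, nhds_subtype_eq_comap, mem_comap] at hV'
      obtain ⟨U, hU, hUV⟩ := hV'
      exact ⟨U, hU, fun n hn => hUV hn⟩
    · intro V hV
      have hc : ContinuousAt (fun z : A => (h z : Y)) x :=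
        (continuous_subtype_val.comp h.continuous).continuousAt
      have hV' := hc hV
      obtain ⟨O, hO, hOo, hxO⟩ := mem_nhds_iff.1 hV'
      obtain ⟨n, hn⟩ := hu.exists_mem_open hOo ⟨x, hxO⟩
      exact ⟨n, hO hn⟩
    · intro U hU
      have hc : ContinuousAt (fun z : B => (h.symm z : X)) (h x) :=
        (continuous_subtype_val.comp h.symm.continuous).continuousAt
      have hU' : (fun z : B => (h.symm z : X)) ⁻¹' U ∈ 𝓝 (h x) := by
        apply hc
        simpa using hU
      rw [nhds_subtype_eq_comap, mem_comap] at hU'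
      obtain ⟨V, hV, hVU⟩ := hU'
      refine ⟨V, hV, fun n hn => ?_⟩
      have : h (u n) ∈ (Subtype.val : B → Y) ⁻¹' V := hn
      have := hVU this
      simpa using this
  refine ⟨s, ?_, ?_⟩
  · intro x hx
    have : ∃ y, Rel s x y := ⟨_, hrel ⟨x, hx⟩⟩
    simp [Phi, this]
  · intro x y hxy
    have hr : Rel s x y := by
      unfold Phi at hxy
      split_ifs at hxy with hex
      have := hex.choose_spec
      simp only [Option.some.injEq] at hxy
      rwa [hxy] at this
    constructor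
    · intro hx
      have := hr.unique (hrel ⟨x, hx⟩)
      rw [this]
      exact (h ⟨x, hx⟩).2
    · intro hy
      have h1 := hrel (h.symm ⟨y, hy⟩)
      rw [Homeomorph.apply_symm_apply] at h1
      have := hr.unique' h1
      rw [this]
      exact (h.symm ⟨y, hy⟩).2

end

end Pool.Agent.Q304.FP
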