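import Pool.Agent.Q304.FP.Fam

/-!
A non-meager filter `F` such that neither `F × F⁺` nor `F⁺ × F⁺` is homeomorphic to `F⁺`.
-/

open Set Filter Cardinal Topology

namespace Pool.Agent.Q304.FP

/-- The filter `F`, as a subset of the Cantor set. -/
def fam (F : Filter ℕ) : Set (ℕ → Bool) := {x | {n | x n = true} ∈ F}

/-- The `F`-positive sets, as a subset of the Cantor set. -/
def pos (F : Filter ℕ) : Set (ℕ → Bool) := {x | ∀ A ∈ F, ({n | x n = true} ∩ A).Nonempty}

/-- The even part. -/
def ev (x : ℕ → Bool) : Set ℕ := {n | x (2 * n) = true}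

/-- The odd part. -/
def od (x : ℕ → Bool) : Set ℕ := {n | x (2 * n + 1) = true}

open Classical in
/-- The join of two sets. -/
noncomputable def jn (a b : Set ℕ) : ℕ → Bool :=
  fun n => if n % 2 = 0 then decide (n / 2 ∈ a) else decide (n / 2 ∈ b)

lemma ev_jn (a b : Set ℕ) : ev (jn a b) = a := by
  ext n
  change jn a b (2 * n) = true ↔ n ∈ a
  simp [jn]

lemma od_jn (a b : Set ℕ) : od (jn a b) = b := by
  ext n
  change jn a b (2 * n + 1) = true ↔ n ∈ b
  have h1 : (2 * n + 1) % 2 = 1 := by omega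
  have h2 : (2 * n + 1) / 2 = n := by omega
  simp [jn, h1, h2]

/-- The filter built from a pair of ultrafilters. -/
def FF (U V : Ultrafilter ℕ) : Filter ℕ :=
  (U : Filter ℕ).map (fun n => 2 * n) ⊔ (V : Filter ℕ).map (fun n => 2 * n + 1)

lemma mem_fam (U V : Ultrafilter ℕ) (x : ℕ → Bool) :
    x ∈ fam (FF U V) ↔ ev x ∈ U ∧ od x ∈ V := by
  change {n | x n = true} ∈ FF U V ↔ _
  unfold FF
  rw [mem_sup, mem_map, mem_map]
  rfl

lemma mem_pos (U V : Ultrafilter ℕ) (x : ℕ → Bool) :
    x ∈ pos (FF U V) ↔ ev x ∈ U ∨ od x ∈ V := by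
  change (∀ A ∈ FF U V, ({n | x n = true} ∩ A).Nonempty) ↔ _
  constructor
  · intro h
    by_contra hcon
    push Not at hcon
    have h1 : (ev x)ᶜ ∈ U := Ultrafilter.compl_mem_iff_notMem.2 hcon.1
    have h2 : (od x)ᶜ ∈ V := Ultrafilter.compl_mem_iff_notMem.2 hcon.2
    have h3 : {n | x n = true}ᶜ ∈ FF U V := by
      unfold FF
      rw [mem_sup, mem_map, mem_map]
      exact ⟨h1, h2⟩
    obtain ⟨n, hn, hn'⟩ := h _ h3
    exact hn' hn
  · intro h A hA
    unfold FF at hA
    rw [mem_sup, mem_map, mem_map] at hA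
    rcases h with h | h
    · obtain ⟨n, hn⟩ := U.nonempty_of_mem (inter_mem h hA.1)
      exact ⟨2 * n, hn.1, hn.2⟩
    · obtain ⟨n, hn⟩ := V.nonempty_of_mem (inter_mem h hA.2)
      exact ⟨2 * n + 1, hn.1, hn.2⟩

/-- Flipping the even coordinates (if `i`) and the odd coordinates (if `j`). -/
def flip (i j : Bool) (x : ℕ → Bool) : ℕ → Bool :=
  fun n => xor (x n) (if n % 2 = 0 then i else j)

lemma flip_flip (i j : Bool) (x : ℕ → Bool) : flip i j (flip i j x) = x := by
  funext n
  simp [flip]

lemma continuous_flip (i j : Bool) : Continuous (flip i j) := by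
  refine continuous_pi fun n => ?_
  have : Continuous (fun b : Bool => xor b (if n % 2 = 0 then i else j)) :=
    continuous_of_discreteTopology
  exact this.comp (continuous_apply n)

/-- `flip i j` as a homeomorphism. -/
def flipH (i j : Bool) : (ℕ → Bool) ≃ₜ (ℕ → Bool) where
  toFun := flip i j
  invFun := flip i j
  left_inv := flip_flip i j
  right_inv := flip_flip i j
  continuous_toFun := continuous_flip i j
  continuous_invFun := continuous_flip i j

lemma ev_flip (i j : Bool) (x : ℕ → Bool) : ev (flip i j x) = if i then (ev x)ᶜ else ev x := by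
  ext n
  change flip i j x (2 * n) = true ↔ _
  cases i <;> simp [flip, ev]

lemma od_flip (i j : Bool) (x : ℕ → Bool) : od (flip i j x) = if j then (od x)ᶜ else od x := by
  ext n
  change flip i j x (2 * n + 1) = true ↔ _
  have h1 : (2 * n + 1) % 2 = 1 := by omega
  cases j <;> simp [flip, od, h1]

lemma not_isMeagre_fam (U V : Ultrafilter ℕ) : ¬ IsMeagre (fam (FF U V)) := by
  intro h
  have h1 : ∀ p : Bool × Bool, IsMeagre ((flipH p.1 p.2) ⁻¹' (fam (FF U V))) := fun p =>
    h.preimage_of_isOpenMap (flipH p.1 p.2).continuous (flipH p.1 p.2).isOpenMap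
  have h2 : (⋃ p : Bool × Bool, (flipH p.1 p.2) ⁻¹' (fam (FF U V))) = Set.univ := by
    rw [eq_univ_iff_forall]
    intro x
    have a1 : ∃ i : Bool, (if i then (ev x)ᶜ else ev x) ∈ U := by
      rcases U.mem_or_compl_mem (ev x) with h | h
      · exact ⟨false, by simpa using h⟩
      · exact ⟨true, by simpa using h⟩
    have a2 : ∃ i : Bool, (if i then (od x)ᶜ else od x) ∈ V := by
      rcases V.mem_or_compl_mem (od x) with h | h
      · exact ⟨false, by simpa using h⟩
      · exact ⟨true, by simpa using h⟩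
    obtain ⟨i, hi⟩ := a1
    obtain ⟨j, hj⟩ := a2
    refine mem_iUnion.2 ⟨(i, j), ?_⟩
    change flip i j x ∈ fam (FF U V)
    rw [mem_fam, ev_flip, od_flip]
    exact ⟨hi, hj⟩
  have h3 := isMeagre_iUnion h1
  rw [h2] at h3
  have h4 : (∅ : Set (ℕ → Bool)) ∈ residual (ℕ → Bool) := by
    have := h3
    rw [IsMeagre, compl_univ] at this
    exact this
  have h5 := dense_of_mem_residual h4
  obtain ⟨x, hx, _⟩ := h5.exists_mem_open isOpen_univ ⟨fun _ => true, trivial⟩
  exact hx

lemma FF_le (U V : Ultrafilter ℕ) (hU : (U : Filter ℕ) ≤ cofinite)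
    (hV : (V : Filter ℕ) ≤ cofinite) : FF U V ≤ cofinite := by
  unfold FF
  refine sup_le ?_ ?_
  · exact (Filter.map_mono hU).trans
      (Function.Injective.tendsto_cofinite (f := fun n : ℕ => 2 * n) (fun a b h => by
        simpa using h))
  · exact (Filter.map_mono hV).trans
      (Function.Injective.tendsto_cofinite (f := fun n : ℕ => 2 * n + 1) (fun a b h => by
        simpa using h))

/-- Cantor space. -/
abbrev K := ℕ → Bool

/-- The codes. -/
abbrev Code := Bool × (ℕ → (K × K) × K)

/-- The point assigned to a pair of sets. -/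
noncomputable def pt (j : Bool) (a b : Set ℕ) : K × K :=
  if j then (jn a ∅, jn ∅ b) else (jn a b, fun _ => true)

/-- The partial functions to be killed. -/
noncomputable def gg (c : Code) (a b : Set ℕ) : Option (Set ℕ × Set ℕ) :=
  (Phi c.2 (pt c.1 a b)).map (fun z => ((ev z)ᶜ, (od z)ᶜ))

lemma mk_code : #Code = 𝔠 := by
  simp [Code, K]

theorem exists_filter : ∃ F : Filter ℕ, F.NeBot ∧ F ≤ cofinite ∧ ¬ IsMeagre (fam F) ∧
    IsEmpty ((fam F × pos F) ≃ₜ pos F) ∧ IsEmpty (pos F ≃ₜ (pos F × pos F)) := by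
  obtain ⟨B, hB⟩ := exists_indep
  have hcard : #((𝔠 : Cardinal.{0}).ord.ToType) = #Code := by rw [mk_code]; simp
  obtain ⟨e⟩ := Cardinal.eq.1 hcard
  obtain ⟨U, V, hU, hV, hg⟩ := exists_seq (I := Set ℕ) (by simp) B hB
    (Θ := (𝔠 : Cardinal.{0}).ord.ToType) (fun θ => mk_Iio_toType_ord_lt θ)
    (fun θ => gg (e θ))
  have key : ∀ (j : Bool) (A : Set (K × K)), (∀ a b, pt j a b ∈ A ↔ (a ∈ U ∧ b ∈ V)) →
      A.Nonempty → IsEmpty (A ≃ₜ pos (FF U V)) := by
    intro j A hA hne
    refine ⟨fun h => ?_⟩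
    obtain ⟨s, hs1, hs2⟩ := exists_code hne h
    obtain ⟨a, b, hab⟩ := hg (e.symm (j, s))
    rw [Equiv.apply_symm_apply] at hab
    rcases hab with ⟨h1, h2, h3⟩ | ⟨X, Y, h1, h2⟩
    · have : Phi s (pt j a b) = none := by simpa [gg] using h1
      exact hs1 _ ((hA a b).2 ⟨h2, h3⟩) this
    · simp only [gg, Option.map_eq_some_iff, Prod.mk.injEq] at h1
      obtain ⟨z, hz, rfl, rfl⟩ := h1
      have h4 := hs2 _ _ hz
      rw [hA, mem_pos] at h4
      rw [Ultrafilter.compl_mem_iff_notMem, Ultrafilter.compl_mem_iff_notMem] at h2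
      apply h2
      constructor
      · rintro ⟨a1, a2⟩
        by_contra hcon
        push Not at hcon
        rcases h4.1 hcon with h | h
        · exact a1 h
        · exact a2 h
      · intro h5
        by_contra hcon
        have : ev z ∈ U ∨ od z ∈ V := by
          by_contra h6
          push Not at h6
          exact hcon h6
        have := h4.2 this
        rcases h5 with h | h
        · exact h this.1
        · exact h this.2
  have htop : (fun _ => true : K) ∈ pos (FF U V) := by
    rw [mem_pos]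
    left
    have : ev (fun _ => true) = Set.univ := by ext n; simp [ev]
    rw [this]
    exact univ_mem
  have htop' : (fun _ => true : K) ∈ fam (FF U V) := by
    rw [mem_fam]
    have : ev (fun _ => true) = Set.univ := by ext n; simp [ev]
    have h2 : od (fun _ => true) = Set.univ := by ext n; simp [od]
    rw [this, h2]
    exact ⟨univ_mem, univ_mem⟩
  refine ⟨FF U V, ?_, FF_le U V hU hV, not_isMeagre_fam U V, ?_, ?_⟩
  · unfold FF; infer_instance
  · have h := key false (fam (FF U V) ×ˢ pos (FF U V)) (by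
      intro a b
      simp only [pt, Bool.false_eq_true, if_false, mem_prod, htop, and_true, mem_fam, ev_jn,
        od_jn]) ⟨(fun _ => true, fun _ => true), htop', htop⟩
    exact ⟨fun f => h.false ((Homeomorph.Set.prod _ _).trans f)⟩
  · have h := key true (pos (FF U V) ×ˢ pos (FF U V)) (by
      intro a b
      have e1 : (∅ : Set ℕ) ∉ U := U.empty_notMem
      have e2 : (∅ : Set ℕ) ∉ V := V.empty_notMem
      simp only [pt, if_true, mem_prod, mem_pos, ev_jn, od_jn, e1, e2, or_false, false_or])
        ⟨(fun _ => true, fun _ => true), htop, htop⟩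
    exact ⟨fun f => h.false ((Homeomorph.Set.prod _ _).trans f.symm)⟩

end Pool.Agent.Q304.FP
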